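import Pool.Agent.MP_fcd29e_an.H11.CS

/-!
An atlas of the curve with frames.
-/

set_option autoImplicit false

open Complex Set Filter Topology Metric Pool.Agent.MP_fcd29e_an.H81 Pool.Agent.MP_fcd29e_an.H11
open scoped ContDiff ComplexConjugate

namespace Pool.Agent.MP_fcd29e_an.H25

theorem sv1 : SV1 := by
  intro ι _ m n _ ε wi α _ _ _ Adm Y σ hX hC
  have key : ∀ P₀ ∈ Y, ∃ (r : ℝ) (P : ℂ → α → ℂ) (e : ℂ → (V ι →L[ℂ] (ε → ℂ)))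
      (w : ℂ → (V ι →L[ℂ] (wi → ℂ))) (φ : ℂ × V ι → ℝ), 0 < r ∧
      (∀ z ∈ ball (0 : ℂ) r, AnalyticAt ℂ P z ∧ AnalyticAt ℂ e z ∧ AnalyticAt ℂ w z ∧
        P z ∈ Y ∧ Imm P z ∧
        Adm (fun o => MvPolynomial.eval (P z) (σ o)) (e z) (w z) (fun x => φ (z, x)) ∧
        ∀ x ∈ cone ι, ContDiffAt ℝ ∞ φ (z, x) ∧ lap (fun y => φ (y, x)) z < 0) ∧
      {P' | P' ∈ Y → ∃ c : ℂ, c ≠ 0 ∧ ∃ z ∈ closedBall (0 : ℂ) (r / 2), P' = c • P z} ∈ 𝓝 P₀ := by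
    intro P₀ h₀
    obtain ⟨P, h1, -, h3, h4, h5⟩ := hC.chart P₀ h₀
    have h6 : AnalyticAt ℂ (fun z o => MvPolynomial.eval (P z) (σ o)) 0 :=
      analyticAt_pi_iff.2 fun o =>
        (AnalyticOnNhd.eval_mvPolynomial (σ o) (P 0) (mem_univ _)).comp h1
    obtain ⟨e, w, φ, g1, g2, g3⟩ := hX _ 0 h6 (h3.mono fun z hz => hC.maps _ hz.1) h4
    have h7 := h1.eventually_analyticAt.and (g1.eventually_analyticAt.and
      (g2.eventually_analyticAt.and (h3.and g3)))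
    obtain ⟨r, hr, h8⟩ := Metric.eventually_nhds_iff_ball.1 h7
    refine ⟨r, P, e, w, φ, hr, fun z hz => ?_, h5 _ (closedBall_mem_nhds _ (half_pos hr))⟩
    obtain ⟨a1, a2, a3, ⟨a4, a5⟩, a6, a7⟩ := h8 z hz
    exact ⟨a1, a2, a3, a4, a5, a6, a7⟩
  choose! r P e w φ hr han hU using key
  have hK : IsCompact (Y ∩ sphere 0 1) := by
    have h1 : Y ∩ sphere 0 1 = sphere 0 1 ∩ (Y ∪ {0}) := by
      ext Q
      refine ⟨fun h => ⟨h.2, Or.inl h.1⟩, fun h => ⟨h.2.resolve_right fun h0 => ?_, h.1⟩⟩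
      have h2 := h.1
      rw [mem_singleton_iff.1 h0, mem_sphere, dist_self] at h2
      exact zero_ne_one h2
    rw [h1]
    exact (isCompact_sphere _ _).inter_right hC.closed
  have hn : ∀ Q ∈ Y, ((‖Q‖ : ℝ) : ℂ) ≠ 0 ∧ ((‖Q‖ : ℝ) : ℂ)⁻¹ • Q ∈ Y ∩ sphere 0 1 := by
    intro Q hQ
    have h1 : ‖Q‖ ≠ 0 := norm_ne_zero_iff.2 fun h => hC.nz (h ▸ hQ)
    have h2 : ((‖Q‖ : ℝ) : ℂ) ≠ 0 := by exact_mod_cast h1
    refine ⟨h2, hC.cone _ (inv_ne_zero h2) Q hQ, ?_⟩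
    rw [mem_sphere_zero_iff_norm, norm_smul, norm_inv, Complex.norm_real, norm_norm,
      inv_mul_cancel₀ h1]
  obtain ⟨t, ht⟩ := hK.elim_nhds_subcover' (fun Q _ => {P' | P' ∈ Y → ∃ c : ℂ, c ≠ 0 ∧
    ∃ z ∈ closedBall (0 : ℂ) (r Q / 2), P' = c • P Q z}) fun Q hQ => hU Q hQ.1
  refine ⟨↥(Y ∩ sphere (0 : α → ℂ) 1), fun j => ball 0 (r j), fun j => P j, fun j => e j,
    fun j => w j, fun j => φ j, fun _ => isOpen_ball, ?_, fun j => han j j.2.1,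
    t, fun j => closedBall 0 (r j / 2), fun j _ => ⟨isCompact_closedBall _ _,
      closedBall_subset_ball (half_lt_self (hr j j.2.1))⟩, fun Q hQ => ?_⟩
  · obtain ⟨Q, hQ⟩ := hC.ne
    exact ⟨⟨_, (hn Q hQ).2⟩, 0, mem_ball_self (hr _ (hn Q hQ).2.1)⟩
  · obtain ⟨h1, h2⟩ := hn Q hQ
    obtain ⟨j, hj, h3⟩ := mem_iUnion₂.1 (ht h2)
    obtain ⟨c, hc, z, hz, h4⟩ := h3 h2.1
    refine ⟨j, hj, z, hz, ((‖Q‖ : ℝ) : ℂ) * c, mul_ne_zero h1 hc, ?_⟩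
    rw [mul_smul, ← h4, smul_inv_smul₀ h1]

end Pool.Agent.MP_fcd29e_an.H25
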